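import Pool.Agent.U483.KM.Defs

/-!
# Semisimple categories: Euler characteristics and objects without maps to good objects
-/

set_option autoImplicit false

open CategoryTheory CategoryTheory.Limits Module

namespace Pool.Agent.U483.KM

universe w x

section

variable {𝓜 : Type w} [Category.{x} 𝓜] [Abelian 𝓜] [Linear ℚ 𝓜]

lemma epi_split (h : IsSemisimple 𝓜) {A B : 𝓜} (f : A ⟶ B) [Epi f] : ∃ s : B ⟶ A, s ≫ f = 𝟙 B := by
  have h1 : (ShortComplex.mk (kernel.ι f) f (kernel.condition f)).ShortExact :=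
    { exact := ShortComplex.exact_of_f_is_kernel _ (kernelIsKernel f)
      mono_f := by dsimp; infer_instance
      epi_g := by dsimp; infer_instance }
  obtain ⟨S⟩ := h.split _ h1
  exact ⟨S.s, S.s_g⟩

lemma mono_split (h : IsSemisimple 𝓜) {A B : 𝓜} (f : A ⟶ B) [Mono f] : ∃ r : B ⟶ A, f ≫ r = 𝟙 A := by
  have h1 : (ShortComplex.mk f (cokernel.π f) (cokernel.condition f)).ShortExact :=
    { exact := ShortComplex.exact_of_g_is_cokernel _ (cokernelIsCokernel f)
      mono_f := by dsimp; infer_instance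
      epi_g := by dsimp; infer_instance }
  obtain ⟨S⟩ := h.split _ h1
  exact ⟨S.r, S.f_r⟩

lemma hom_exact (h : IsSemisimple 𝓜) (S : 𝓜) {A B C : 𝓜} {f : A ⟶ B} {g : B ⟶ C}
    (hfg : ExactAt f g) :
    Function.Exact (Linear.rightComp ℚ S f) (Linear.rightComp ℚ S g) := by
  obtain ⟨h0, he⟩ := hfg
  intro y
  constructor
  · intro hy
    change y ≫ g = 0 at hy
    obtain ⟨A', π, hπ, x₁, hx⟩ := he.exact_up_to_refinements y hy
    obtain ⟨s, hs⟩ := epi_split h π
    refine ⟨s ≫ x₁, ?_⟩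
    change (s ≫ x₁) ≫ f = y
    dsimp at hx
    rw [Category.assoc, ← hx, ← Category.assoc, hs, Category.id_comp]
  · rintro ⟨z, rfl⟩
    change (z ≫ f) ≫ g = 0
    rw [Category.assoc, h0, comp_zero]

/-- the Euler characteristic of the morphisms from `S` -/
noncomputable def eul (S : 𝓜) (M : ℤ → 𝓜) : ℤ :=
  ∑ᶠ i : ℤ, (i.negOnePow : ℤ) * (finrank ℚ (S ⟶ M i) : ℤ)

lemma finrank_zero_of_isZero (S : 𝓜) {A : 𝓜} (hA : IsZero A) : finrank ℚ (S ⟶ A) = 0 := by
  have : Subsingleton (S ⟶ A) := ⟨fun f g => hA.eq_of_tgt f g⟩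
  exact finrank_zero_of_subsingleton

lemma exact_finrank {V W T : Type*} [AddCommGroup V] [Module ℚ V] [AddCommGroup W] [Module ℚ W]
    [AddCommGroup T] [Module ℚ T] [Module.Finite ℚ W] {f : V →ₗ[ℚ] W} {g : W →ₗ[ℚ] T}
    (h : Function.Exact f g) : finrank ℚ W = finrank ℚ (LinearMap.range f) +
      finrank ℚ (LinearMap.range g) := by
  rw [← LinearMap.finrank_range_add_finrank_ker g, h.linearMap_ker_eq, add_comm]

/-- Euler characteristics in long exact sequences -/
theorem eul_add (h : IsSemisimple 𝓜) (S : 𝓜) {U X Z : ℤ → 𝓜} (hl : LongExactIn U X Z)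
    (n : ℕ) (hU : ∀ i : ℤ, (i < 0 ∨ n < i) → IsZero (U i)) (hX : ∀ i : ℤ, (i < 0 ∨ n < i) → IsZero (X i))
    (hZ : ∀ i : ℤ, (i < 0 ∨ n < i) → IsZero (Z i)) : eul S X = eul S Z + eul S U := by
  obtain ⟨a, b, d, hab, hbd, hda⟩ := hl
  have hf := h.finite
  set ra : ℤ → ℤ := fun i => (finrank ℚ (LinearMap.range (Linear.rightComp ℚ S (a i))) : ℤ) with hra
  set rb : ℤ → ℤ := fun i => (finrank ℚ (LinearMap.range (Linear.rightComp ℚ S (b i))) : ℤ) with hrb
  set rd : ℤ → ℤ := fun i => (finrank ℚ (LinearMap.range (Linear.rightComp ℚ S (d i))) : ℤ) with hrd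
  have eX : ∀ i, (finrank ℚ (S ⟶ X i) : ℤ) = ra i + rb i := fun i => by
    rw [exact_finrank (hom_exact h S (hab i))]; push_cast; rfl
  have eZ : ∀ i, (finrank ℚ (S ⟶ Z i) : ℤ) = rb i + rd i := fun i => by
    rw [exact_finrank (hom_exact h S (hbd i))]; push_cast; rfl
  have eU : ∀ i, (finrank ℚ (S ⟶ U (i + 1)) : ℤ) = rd i + ra (i + 1) := fun i => by
    rw [exact_finrank (hom_exact h S (hda i))]; push_cast; rfl
  have za : ∀ i : ℤ, (i < 0 ∨ n < i) → ra i = 0 := by
    intro i hi
    have h1 := eX i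
    rw [finrank_zero_of_isZero S (hX i hi)] at h1
    have h2 : 0 ≤ ra i := Int.natCast_nonneg _
    have h3 : 0 ≤ rb i := Int.natCast_nonneg _
    push_cast at h1
    omega
  have zb : ∀ i : ℤ, (i < 0 ∨ n < i) → rb i = 0 := by
    intro i hi
    have h1 := eX i
    rw [finrank_zero_of_isZero S (hX i hi)] at h1
    have h2 : 0 ≤ ra i := Int.natCast_nonneg _
    have h3 : 0 ≤ rb i := Int.natCast_nonneg _
    push_cast at h1
    omega
  have zd : ∀ i : ℤ, (i < 0 ∨ n < i) → rd i = 0 := by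
    intro i hi
    have h1 := eZ i
    rw [finrank_zero_of_isZero S (hZ i hi)] at h1
    have h2 : 0 ≤ rb i := Int.natCast_nonneg _
    have h3 : 0 ≤ rd i := Int.natCast_nonneg _
    push_cast at h1
    omega
  have fin : ∀ r : ℤ → ℤ, (∀ i : ℤ, (i < 0 ∨ n < i) → r i = 0) →
      (Function.support fun i : ℤ => (i.negOnePow : ℤ) * r i).Finite := by
    intro r hr
    refine (Set.finite_Icc (0 : ℤ) n).subset fun i hi => ?_
    by_contra h1
    rw [Set.mem_Icc] at h1
    refine hi ?_
    change (i.negOnePow : ℤ) * r i = 0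
    rw [hr i (by omega), mul_zero]
  have s1 : eul S X = ∑ᶠ i : ℤ, (i.negOnePow : ℤ) * ra i + ∑ᶠ i : ℤ, (i.negOnePow : ℤ) * rb i := by
    rw [← finsum_add_distrib (fin _ za) (fin _ zb)]
    exact finsum_congr fun i => by rw [eX, mul_add]
  have s2 : eul S Z = ∑ᶠ i : ℤ, (i.negOnePow : ℤ) * rb i + ∑ᶠ i : ℤ, (i.negOnePow : ℤ) * rd i := by
    rw [← finsum_add_distrib (fin _ zb) (fin _ zd)]
    exact finsum_congr fun i => by rw [eZ, mul_add]
  have hshift : ∀ F : ℤ → ℤ, ∑ᶠ i : ℤ, F (i + 1) = ∑ᶠ i : ℤ, F i := fun F =>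
    finsum_comp_equiv (Equiv.addRight (1 : ℤ)) (f := F)
  have s3 : eul S U = -∑ᶠ i : ℤ, (i.negOnePow : ℤ) * rd i + ∑ᶠ i : ℤ, (i.negOnePow : ℤ) * ra i := by
    rw [eul, ← hshift, ← finsum_neg_distrib, ← hshift (fun i => (i.negOnePow : ℤ) * ra i)]
    have f1 : (Function.support fun i : ℤ => -((i.negOnePow : ℤ) * rd i)).Finite := by
      rw [Function.support_fun_neg]
      exact fin _ zd
    have f2 : (Function.support fun i : ℤ => ((i + 1).negOnePow : ℤ) * ra (i + 1)).Finite := by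
      refine (Set.finite_Icc (-1 : ℤ) n).subset fun i hi => ?_
      by_contra h1
      rw [Set.mem_Icc] at h1
      refine hi ?_
      change ((i + 1).negOnePow : ℤ) * ra (i + 1) = 0
      rw [za (i + 1) (by omega), mul_zero]
    rw [← finsum_add_distrib f1 f2]
    refine finsum_congr fun i => ?_
    rw [eU, Int.negOnePow_succ]
    push_cast
    ring
  rw [s1, s2, s3]
  ring

/-- The class of good objects is closed under direct factors and under extensions. -/
structure IsGoodClass (G : 𝓜 → Prop) : Prop where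
  retract : ∀ {A B : 𝓜} (s : A ⟶ B) (r : B ⟶ A), s ≫ r = 𝟙 A → G B → G A
  ext : ∀ S : ShortComplex 𝓜, S.ShortExact → G S.X₁ → G S.X₃ → G S.X₂

/-- An object which is not good has a direct factor which is not good and has no morphisms to good
objects. -/
theorem exists_bad (h : IsSemisimple 𝓜) {G : 𝓜 → Prop} (hG : IsGoodClass G) :
    ∀ (n : ℕ) (T : 𝓜), finrank ℚ (T ⟶ T) ≤ n → ¬ G T →
      ∃ (S : 𝓜) (s : S ⟶ T) (r : T ⟶ S), s ≫ r = 𝟙 S ∧ ¬ G S ∧ ∀ A, G A → ∀ f : S ⟶ A, f = 0 := by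
  have hf := h.finite
  intro n
  induction n with
  | zero =>
    intro T hn hT
    refine ⟨T, 𝟙 T, 𝟙 T, Category.comp_id _, hT, fun A _ f => ?_⟩
    have h1 : finrank ℚ (T ⟶ T) = 0 := by omega
    have h2 : Subsingleton (T ⟶ T) := finrank_zero_iff.1 h1
    rw [← Category.id_comp f, Subsingleton.elim (𝟙 T) 0, zero_comp]
  | succ n ih =>
    intro T hn hT
    by_cases hall : ∀ A, G A → ∀ f : T ⟶ A, f = 0
    · exact ⟨T, 𝟙 T, 𝟙 T, Category.comp_id _, hT, hall⟩
    · push Not at hall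
      obtain ⟨A, hA, f, hf0⟩ := hall
      -- the image is good
      have hI : G (Limits.image f) := by
        obtain ⟨r, hr⟩ := mono_split h (Limits.image.ι f)
        exact hG.retract _ r hr hA
      have hse : (ShortComplex.mk (kernel.ι (factorThruImage f)) (factorThruImage f)
          (kernel.condition _)).ShortExact :=
        { exact := ShortComplex.exact_of_f_is_kernel _ (kernelIsKernel _)
          mono_f := by dsimp; infer_instance
          epi_g := by dsimp; infer_instance }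
      have hK' : ¬ G (kernel (factorThruImage f)) := fun hK => hT (hG.ext _ hse hK hI)
      obtain ⟨K, κ, s, hs, hκ, hK⟩ : ∃ (K : 𝓜) (κ : K ⟶ T) (s : T ⟶ K), κ ≫ s = 𝟙 K ∧
          κ ≫ factorThruImage f = 0 ∧ ¬ G K := by
        obtain ⟨s, hs⟩ := mono_split h (kernel.ι (factorThruImage f))
        exact ⟨_, _, s, hs, kernel.condition _, hK'⟩
      -- the dimension of the endomorphisms
      let Ψ : (K ⟶ K) →ₗ[ℚ] (T ⟶ T) :=
        (Linear.leftComp ℚ T s).comp (Linear.rightComp ℚ K κ)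
      have hΨ : ∀ g, Ψ g = s ≫ g ≫ κ := fun g => rfl
      have hinj : Function.Injective Ψ := by
        intro g g' hg
        rw [hΨ, hΨ] at hg
        have h1 : κ ≫ (s ≫ g ≫ κ) ≫ s = κ ≫ (s ≫ g' ≫ κ) ≫ s := by rw [hg]
        simp only [Category.assoc, hs, Category.comp_id] at h1
        rw [← Category.assoc, hs, Category.id_comp, ← Category.assoc, hs, Category.id_comp] at h1
        exact h1
      have hns : LinearMap.range Ψ ≠ ⊤ := by
        intro htop
        have h1 : 𝟙 T ∈ LinearMap.range Ψ := by rw [htop]; trivial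
        obtain ⟨g, hg⟩ := h1
        rw [hΨ] at hg
        apply hf0
        have h2 : f = factorThruImage f ≫ Limits.image.ι f := (Limits.image.fac f).symm
        have h3 : factorThruImage f = 0 := by
          rw [← Category.id_comp (factorThruImage f), ← hg, Category.assoc, Category.assoc,
            hκ, comp_zero, comp_zero]
        rw [h2, h3, zero_comp]
      have hlt : finrank ℚ (K ⟶ K) < finrank ℚ (T ⟶ T) := by
        rw [← LinearMap.finrank_range_of_inj hinj]
        exact Submodule.finrank_lt hns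
      obtain ⟨S, i, p, hip, hS, hS'⟩ := ih K (by omega) hK
      refine ⟨S, i ≫ κ, s ≫ p, ?_, hS, hS'⟩
      rw [Category.assoc, ← Category.assoc κ, hs, Category.id_comp, hip]

end

end Pool.Agent.U483.KM
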