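import Pool.Agent.U483.KM.Ten
import Pool.Agent.U483.KM.Cat
import Pool.Agent.U483.CX.Strat
import Pool.Agent.U738.BN.Bnd
import Pool.Agent.U583.MW.Main

/-!
# mw purity depends only on the class in the Grothendieck ring of varieties
-/

set_option autoImplicit false

open CategoryTheory CategoryTheory.Limits AlgebraicGeometry Module Pool.Agent.Y116.UV
  Pool.Agent.U583.MW Pool.Agent.Z125.UN

namespace Pool.Agent.U483.KM

universe u v w x

section

variable {k : Type} [Field k] {Ω : Type u} [Field Ω] [CharZero Ω] [IsAlgClosed Ω] {q : ℕ}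
  {H : Coh.{u, v} k Ω q} {𝓜 : Type w} [Category.{x} 𝓜] [Abelian 𝓜] [Linear ℚ 𝓜]
  (M : Motives H 𝓜)

/-- The good objects of weight `w`: the realization is mw pure of weight `w`. -/
def good (w : ℤ) (A : 𝓜) : Prop := (M.real A).Pure q w

omit [IsAlgClosed Ω] in
lemma map_zero' {A B : 𝓜} (x : (M.real A).V) : (M.map (0 : A ⟶ B)).f x = 0 := by
  have h := M.map_add (0 : A ⟶ B) 0 x
  rw [add_zero] at h
  simpa using h

lemma good_class (hq : 1 < q) (w : ℤ) : IsGoodClass (good M w) where
  retract {A B} s r h hB := by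
    refine Rep.factor hq (M.weights A) (M.weights B) ⟨M.map s, M.map r, fun x => ?_⟩ hB
    rw [← M.map_comp, h, M.map_id]
  ext S hS h1 h3 := by
    obtain ⟨T⟩ := M.semisimple.split S hS
    have e1 : Function.Exact (M.map S.f).f (M.map S.g).f := by
      intro x
      constructor
      · intro hx
        refine ⟨(M.map T.r).f x, ?_⟩
        have h := M.map_id S.X₂ x
        rw [← T.id, M.map_add, M.map_comp, M.map_comp, hx, map_zero, add_zero] at h
        exact h
      · rintro ⟨y, rfl⟩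
        rw [← M.map_comp, S.zero, map_zero']
    have e2 : Function.Exact (M.map S.g).f (M.map (0 : S.X₃ ⟶ S.X₁)).f := by
      intro x
      constructor
      · intro _
        refine ⟨(M.map T.s).f x, ?_⟩
        rw [← M.map_comp, T.s_g, M.map_id]
      · intro _
        exact map_zero' M x
    have e3 : Function.Exact (M.map (0 : S.X₃ ⟶ S.X₁)).f (M.map S.f).f := by
      intro x
      constructor
      · intro hx
        refine ⟨0, ?_⟩
        have h : (M.map T.r).f ((M.map S.f).f x) = x := by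
          rw [← M.map_comp, T.f_r, M.map_id]
        rw [map_zero, ← h, hx, map_zero]
      · rintro ⟨y, rfl⟩
        rw [map_zero', map_zero]
    exact Rep.five hq (M.weights _) (M.weights _) (M.weights _) (M.weights _) (M.weights _)
      (M.map (0 : S.X₃ ⟶ S.X₁)) (M.map S.f) (M.map S.g) (M.map (0 : S.X₃ ⟶ S.X₁)) e3 e1 e2 h3 h1 h3 h1

/-- The additive function on `K_0(Var_k)` given by an object of the category of motives. -/
noncomputable def mu0 (w : ℤ) (S : 𝓜) : FreeAbelianGroup (Var k) →+ ℤ :=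
  FreeAbelianGroup.lift fun X => eul S fun n => M.h n w X.1

/-- the Euler characteristic does not change under isomorphisms -/
lemma eul_triple (w : ℤ) (S : 𝓜) {Z X U : Var k} (i : Z.1 ⟶ X.1) (j : U.1 ⟶ X.1)
    (ht : IsTriple i j) : (eul S fun n => M.h n w X.1) = (eul S fun n => M.h n w Z.1) +
      eul S fun n => M.h n w U.1 := by
  obtain ⟨n1, h1⟩ := M.bounded Z.1 Z.2
  obtain ⟨n2, h2⟩ := M.bounded X.1 X.2
  obtain ⟨n3, h3⟩ := M.bounded U.1 U.2
  refine eul_add M.semisimple S (M.sequence w i j X.2 ht) (n1 + n2 + n3) (fun i hi => h3 i w ?_)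
    (fun i hi => h2 i w ?_) (fun i hi => h1 i w ?_) <;>
  · push_cast at hi
    omega

lemma eul_iso (S : 𝓜) {A B : ℤ → 𝓜} (h : ∀ n, Nonempty (A n ≅ B n)) : eul S A = eul S B := by
  refine finsum_congr fun n => ?_
  obtain ⟨e⟩ := h n
  rw [(Linear.homCongr ℚ (Iso.refl S) e).finrank_eq]

/-- The additive function on `K_0(Var_k)`. -/
noncomputable def mu (w : ℤ) (S : 𝓜) : K0 k →+ ℤ :=
  QuotientAddGroup.lift _ (mu0 M w S) (by
    rw [AddSubgroup.closure_le]
    rintro r (⟨X, Y, ⟨e⟩, rfl⟩ | ⟨Z, X, U, i, j, ht, rfl⟩)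
    · change mu0 M w S _ = 0
      rw [map_sub, mu0, FreeAbelianGroup.lift_apply_of, FreeAbelianGroup.lift_apply_of, sub_eq_zero]
      exact eul_iso S fun n => M.h_iso n w X.1 Y.1 X.2 ⟨e⟩
    · change mu0 M w S _ = 0
      rw [map_sub, map_add, mu0, FreeAbelianGroup.lift_apply_of, FreeAbelianGroup.lift_apply_of,
        FreeAbelianGroup.lift_apply_of, sub_eq_zero]
      exact eul_triple M w S i j ht)

lemma mu_cls (w : ℤ) (S : 𝓜) (X : Var k) : mu M w S (cls X) = eul S fun n => M.h n w X.1 := by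
  change mu0 M w S (FreeAbelianGroup.of X) = _
  rw [mu0, FreeAbelianGroup.lift_apply_of]

lemma isZero_of_gr {n w : ℤ} {X : Var k} (h : Subsingleton (H.gr n w X.1).V) :
    IsZero (M.h n w X.1) := by
  obtain ⟨e, -, -⟩ := M.h_real n w X.1 X.2
  rw [IsZero.iff_id_eq_zero]
  refine M.faithful _ fun x => ?_
  rw [M.map_id]
  exact e.injective (Subsingleton.elim _ _)

lemma good_iff (hq : 1 < q) (n w : ℤ) (X : Var k) :
    good M w (M.h n w X.1) ↔ (H.gr n w X.1).Pure q w :=
  Rep.iso (by omega) (M.h_real n w X.1 X.2)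

include M in
/-- The conjecture for a smooth projective scheme follows from the conjecture for schemes whose
classes generate its class. -/
theorem pure_of_mem (hq : 1 < q) {C : Sch k → Prop} (hC : IsProjClass H C) {X : Var k}
    (hX : C X.1) (h : cls X ∈ AddSubgroup.closure {c | ∃ Y : Var k, H.MW Y.1 ∧ c = cls Y}) (i : ℤ) :
    (H.gr i i X.1).Pure q i := by
  by_contra hbad
  rw [← good_iff M hq] at hbad
  obtain ⟨S, s, r, hsr, hS, hS'⟩ := exists_bad M.semisimple (good_class M hq i) _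
    (M.h i i X.1) le_rfl hbad
  have hle : AddSubgroup.closure {c | ∃ Y : Var k, H.MW Y.1 ∧ c = cls Y} ≤ (mu M i S).ker := by
    rw [AddSubgroup.closure_le]
    rintro c ⟨Y, hY, rfl⟩
    change mu M i S (cls Y) = 0
    rw [mu_cls, eul]
    refine finsum_eq_zero_of_forall_eq_zero fun n => ?_
    have hg : good M i (M.h n i Y.1) := (good_iff M hq n i Y).2 (hY n i)
    have hsub : Subsingleton (S ⟶ M.h n i Y.1) := ⟨fun f g => by rw [hS' _ hg f, hS' _ hg g]⟩
    rw [finrank_zero_of_subsingleton, Nat.cast_zero, mul_zero]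
  have h0 : mu M i S (cls X) = 0 := hle h
  rw [mu_cls, eul, finsum_eq_single _ i] at h0
  · have h1 : finrank ℚ (S ⟶ M.h i i X.1) = 0 := by
      rcases mul_eq_zero.1 h0 with h2 | h2
      · exact absurd h2 (Units.ne_zero _)
      · exact_mod_cast h2
    have := M.semisimple.finite S (M.h i i X.1)
    have h2 : Subsingleton (S ⟶ M.h i i X.1) := finrank_zero_iff.1 h1
    have h3 : 𝟙 S = 0 := by rw [← hsr, Subsingleton.elim s 0, zero_comp]
    apply hS
    refine Rep.pure_of_subsingleton ⟨fun x y => ?_⟩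
    have h4 : ∀ x : (M.real S).V, x = 0 := fun x => by
      rw [← M.map_id S x, h3, map_zero']
    rw [h4 x, h4 y]
  · intro n hn
    have hz := isZero_of_gr M (hC.weil X.1 hX n i hn)
    rw [finrank_zero_of_isZero S hz, Nat.cast_zero, mul_zero]

omit [IsAlgClosed Ω] in
lemma mw_of_pr {C : Sch k → Prop} (hC : IsProjClass H C) {X : Sch k} (hX : C X)
    (h : ∀ i : ℤ, (H.gr i i X).Pure q i) : H.MW X := by
  intro i w
  by_cases hiw : i = w
  · subst hiw
    exact h i
  · exact Rep.pure_of_subsingleton (hC.weil X hX i w hiw)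

include M in
theorem pure_iff_mem (hq : 1 < q) {C : Sch k → Prop} (hC : IsProjClass H C) {X : Var k}
    (hX : C X.1) : (∀ i : ℤ, (H.gr i i X.1).Pure q i) ↔
      cls X ∈ AddSubgroup.closure {c | ∃ Y : Var k, H.MW Y.1 ∧ c = cls Y} :=
  ⟨fun h => AddSubgroup.subset_closure ⟨X, mw_of_pr hC hX h, rfl⟩, fun h i => pure_of_mem M hq hC hX h i⟩

end

section built

variable {k : Type} [Field k] [PerfectField k] {Ω : Type u} [Field Ω] [CharZero Ω] [IsAlgClosed Ω]
  {q : ℕ} {H : Coh.{u, v} k Ω q}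

/-- mw purity for the schemes of the class `Built`. -/
theorem mw_built (hq : 1 < q) (hH : IsMultiplicative H) {B : Sch k → Prop}
    (h0 : ∀ X, FT True X → B X → H.MW X) {D : ℕ} (hD : H.MWDim D) :
    ∀ {X : Sch k}, Built k B D X → FT True X ∧ H.MW X := by
  have hB := bnd H hq
  intro X hX
  induction hX with
  | base X hX hb => exact ⟨hX, h0 X hX hb⟩
  | dim X hX hd => exact ⟨hX, hD X hX hd⟩
  | sparse n G hG =>
    refine ⟨ft_aff True, ?_⟩
    have hd : ∀ (A : Type) [CommRing A] [Algebra k A] [Algebra.FiniteType k A],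
        ringKrullDim A ≤ D → H.MW (aff k A) := fun A _ _ _ hA =>
      hD _ (ft_aff True) (by rw [topDim_aff]; exact hA)
    refine Pool.Agent.U483.CX.small_finset (Pool.Agent.U738.BN.pos_of_bnd hB fun A _ _ _ => ?_) D
      hd G hG
    have h1 : IsArtinianRing A := IsArtinianRing.of_finite k A
    have h2 : ringKrullDim A ≤ (0 : ℕ) := Ring.krullDimLE_iff.1 inferInstance
    exact hd A (h2.trans (by exact_mod_cast Nat.zero_le D))
  | prod p r hZ hf _ _ hX hY =>
    refine ⟨hf, fun n w => ?_⟩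
    obtain ⟨s, hs⟩ := hH.kunneth p r hX.1 hY.1 hZ n w
    refine (Rep.iso (by omega) hs).1 (pi_pure _ fun t => ?_)
    have h1 := ten_pure hq (H.weights t.1.1 t.1.2 _ hX.1) (H.weights (n - t.1.1) (w - t.1.2) _ hY.1)
      (hX.2 t.1.1 t.1.2) (hY.2 (n - t.1.1) (w - t.1.2))
    rwa [add_sub_cancel] at h1
  | cover π hπ _ hY =>
    exact ⟨hπ.ft', fun i w => Rep.factor hq (H.weights i w _ hπ.ft') (H.weights i w _ hπ.ft)
      (hH.transfer π hπ i w) (hY.2 i w)⟩
  | total i j hf ht _ _ hZ hU => exact ⟨hf, hB.total i j hf ht hZ.2 hU.2⟩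
  | opened i j hf ht _ _ hZ hX => exact ⟨ft_opened j hf ht.opened, hB.opened i j hf ht hZ.2 hX.2⟩
  | closed i j hf ht _ _ hX hU => exact ⟨ft_closed i hf ht.closed, hB.closed i j hf ht hX.2 hU.2⟩

end built

end Pool.Agent.U483.KM
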