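import Pool.Agent.U583.MW.Defs

/-!
# Semisimple motives, the Grothendieck ring of varieties, and classes of schemes: definitions
-/

set_option autoImplicit false

open CategoryTheory CategoryTheory.Limits AlgebraicGeometry Module TensorProduct Pool.Agent.Y116.UV
  Pool.Agent.U583.MW

namespace Pool.Agent.U483.KM

universe u v w x

/-! ### Operations on spaces with Frobenius and monodromy -/

/-- The tensor product: `Φ` acts by `Φ ⊗ Φ` and `N` by `N ⊗ 1 + 1 ⊗ N`. -/
noncomputable def ten {Ω : Type u} [Field Ω] (A B : Rep.{u, v} Ω) : Rep.{u, v} Ω where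
  V := A.V ⊗[Ω] B.V
  Φ := TensorProduct.map A.Φ B.Φ
  N := TensorProduct.map A.N LinearMap.id + TensorProduct.map LinearMap.id B.N

/-- The product of a family. -/
def piR {Ω : Type u} [Field Ω] {ι : Type} (A : ι → Rep.{u, v} Ω) : Rep.{u, v} Ω where
  V := ∀ i, (A i).V
  Φ := LinearMap.pi fun i => (A i).Φ ∘ₗ LinearMap.proj i
  N := LinearMap.pi fun i => (A i).N ∘ₗ LinearMap.proj i

/-! ### Semisimple categories -/

/-- The sequence `A → B → C` is exact in the abelian category. -/
def ExactAt {𝓜 : Type w} [Category.{x} 𝓜] [Abelian 𝓜] {A B C : 𝓜} (f : A ⟶ B) (g : B ⟶ C) : Prop :=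
  ∃ h : f ≫ g = 0, (ShortComplex.mk f g h).Exact

/-- The sequence `... → U i → X i → Z i → U (i + 1) → ...` is exact for suitable morphisms. -/
def LongExactIn {𝓜 : Type w} [Category.{x} 𝓜] [Abelian 𝓜] (U X Z : ℤ → 𝓜) : Prop :=
  ∃ (a : ∀ i, U i ⟶ X i) (b : ∀ i, X i ⟶ Z i) (d : ∀ i, Z i ⟶ U (i + 1)),
    (∀ i, ExactAt (a i) (b i)) ∧ (∀ i, ExactAt (b i) (d i)) ∧ ∀ i, ExactAt (d i) (a (i + 1))

/-- The category is semisimple (all short exact sequences split), and the spaces of morphisms are
finite-dimensional over `ℚ`. -/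
structure IsSemisimple (𝓜 : Type w) [Category.{x} 𝓜] [Abelian 𝓜] [Linear ℚ 𝓜] : Prop where
  split : ∀ S : ShortComplex 𝓜, S.ShortExact → Nonempty S.Splitting
  finite : ∀ A B : 𝓜, Module.Finite ℚ (A ⟶ B)

/-- The pieces `gr i w X = gr^W_w H^i_c(X)` of the theory `H` come from objects `h i w X` of a
semisimple category: the pure motives for absolute Hodge cycles over a subfield `k` of `ℂ` (Deligne,
Jannsen). -/
structure Motives {k : Type} [Field k] {Ω : Type u} [Field Ω] [CharZero Ω] {q : ℕ}
    (H : Coh.{u, v} k Ω q) (𝓜 : Type w) [Category.{x} 𝓜] [Abelian 𝓜] [Linear ℚ 𝓜] where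
  semisimple : IsSemisimple 𝓜
  /-- the realization of an object, with the Frobenius and the monodromy -/
  real : 𝓜 → Rep.{u, v} Ω
  /-- the realization of a morphism -/
  map : ∀ {A B : 𝓜}, (A ⟶ B) → Pool.Agent.U583.MW.Rep.Hom (real A) (real B)
  map_id : ∀ (A : 𝓜) (x : (real A).V), (map (𝟙 A)).f x = x
  map_comp : ∀ {A B C : 𝓜} (f : A ⟶ B) (g : B ⟶ C) (x : (real A).V),
    (map (f ≫ g)).f x = (map g).f ((map f).f x)
  map_add : ∀ {A B : 𝓜} (f g : A ⟶ B) (x : (real A).V), (map (f + g)).f x = (map f).f x + (map g).f x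
  faithful : ∀ {A B : 𝓜} (f : A ⟶ B), (∀ x, (map f).f x = 0) → f = 0
  weights : ∀ A : 𝓜, (real A).HasWeights q
  /-- the motive `gr^W_w h^i_c(X)` -/
  h : ℤ → ℤ → Sch k → 𝓜
  h_real : ∀ (i w : ℤ) (X : Sch k), FT True X → (real (h i w X)).IsIso (H.gr i w X)
  h_iso : ∀ (i w : ℤ) (X Y : Sch k), FT True X → Nonempty (X ≅ Y) → Nonempty (h i w X ≅ h i w Y)
  sequence : ∀ (w : ℤ) {Z X U : Sch k} (i : Z ⟶ X) (j : U ⟶ X), FT True X → IsTriple i j →
    LongExactIn (fun n => h n w U) (fun n => h n w X) (fun n => h n w Z)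
  bounded : ∀ X : Sch k, FT True X → ∃ n : ℕ, ∀ i w : ℤ, (i < 0 ∨ n < i) → IsZero (h i w X)

/-! ### The Grothendieck ring of varieties -/

/-- The separated schemes of finite type over `k`. -/
abbrev Var (k : Type) [Field k] : Type 1 := {X : Sch k // FT True X}

/-- The relations `[X] = [Y]` for isomorphic `X` and `Y`, and `[X] = [Z] + [U]` for a closed subscheme
`Z` of `X` with open complement `U`. -/
def relations (k : Type) [Field k] : Set (FreeAbelianGroup (Var k)) :=
  {r | ∃ X Y : Var k, Nonempty (X.1 ≅ Y.1) ∧ r = FreeAbelianGroup.of X - FreeAbelianGroup.of Y} ∪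
  {r | ∃ (Z X U : Var k) (i : Z.1 ⟶ X.1) (j : U.1 ⟶ X.1), IsTriple i j ∧
    r = FreeAbelianGroup.of X - (FreeAbelianGroup.of Z + FreeAbelianGroup.of U)}

/-- The additive group of the Grothendieck ring `K_0(Var_k)`. -/
abbrev K0 (k : Type) [Field k] : Type 1 := FreeAbelianGroup (Var k) ⧸ AddSubgroup.closure (relations k)

/-- The class of `X` in `K_0(Var_k)`. -/
def cls {k : Type} [Field k] (X : Var k) : K0 k := QuotientAddGroup.mk (FreeAbelianGroup.of X)

/-! ### Products and finite coverings -/

/-- `Z` is the product of `X` and `Y` over `k`. -/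
def IsProd {k : Type} [Field k] {X Y Z : Sch k} (p : Z ⟶ X) (r : Z ⟶ Y) : Prop :=
  Nonempty (IsLimit (BinaryFan.mk p r))

/-- A finite surjective morphism of integral separated schemes of finite type with normal target. -/
structure IsCover {k : Type} [Field k] {Y Y' : Sch k} (π : Y ⟶ Y') : Prop where
  ft : FT True Y
  ft' : FT True Y'
  finite : IsFinite π.left
  surjective : Surjective π.left
  integral : IsIntegral Y.left
  integral' : IsIntegral Y'.left
  normal : ∀ y : Y'.left, IsIntegrallyClosed (Y'.left.presheaf.stalk y)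

/-- Künneth formula and transfer, for the pieces `gr^W_w H^i_c`. -/
structure IsMultiplicative {k : Type} [Field k] {Ω : Type u} [Field Ω] [CharZero Ω] {q : ℕ}
    (H : Coh.{u, v} k Ω q) : Prop where
  kunneth : ∀ {X Y Z : Sch k} (p : Z ⟶ X) (r : Z ⟶ Y), FT True X → FT True Y → IsProd p r →
    ∀ n w : ℤ, ∃ s : Finset (ℤ × ℤ), (piR fun t : s =>
      ten (H.gr t.1.1 t.1.2 X) (H.gr (n - t.1.1) (w - t.1.2) Y)).IsIso (H.gr n w Z)
  transfer : ∀ {Y Y' : Sch k} (π : Y ⟶ Y'), IsCover π → ∀ i w : ℤ,
    (H.gr i w Y').IsFactor (H.gr i w Y)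

/-- The least class of separated schemes of finite type over `k` which contains the members of `B`,
all schemes of dimension at most `D` and all closed subschemes of affine spaces given by finitely many
equations with `t_1, t_2, ...` terms where `∑ max(t_i - 2, 0) ≤ D`, and which is closed under products,
normal images under finite morphisms, and under the passage from two to the third for a closed
subscheme `Z` of `X`, the scheme `X` and the complement `U` of `Z`. -/
inductive Built (k : Type) [Field k] (B : Sch k → Prop) (D : ℕ) : Sch k → Prop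
  | base (X : Sch k) : FT True X → B X → Built k B D X
  | dim (X : Sch k) : FT True X → topologicalKrullDim X.left ≤ D → Built k B D X
  | sparse (n : ℕ) (G : Finset (MvPolynomial (Fin n) k)) :
      ∑ g ∈ G, (g.support.card - 2) ≤ D →
      Built k B D (aff k (MvPolynomial (Fin n) k ⧸ Ideal.span (G : Set (MvPolynomial (Fin n) k))))
  | prod {X Y Z : Sch k} (p : Z ⟶ X) (r : Z ⟶ Y) : IsProd p r → FT True Z →
      Built k B D X → Built k B D Y → Built k B D Z
  | cover {Y Y' : Sch k} (π : Y ⟶ Y') : IsCover π → Built k B D Y → Built k B D Y'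
  | total {Z X U : Sch k} (i : Z ⟶ X) (j : U ⟶ X) : FT True X → IsTriple i j →
      Built k B D Z → Built k B D U → Built k B D X
  | opened {Z X U : Sch k} (i : Z ⟶ X) (j : U ⟶ X) : FT True X → IsTriple i j →
      Built k B D Z → Built k B D X → Built k B D U
  | closed {Z X U : Sch k} (i : Z ⟶ X) (j : U ⟶ X) : FT True X → IsTriple i j →
      Built k B D X → Built k B D U → Built k B D Z

end Pool.Agent.U483.KM
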