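import Pool.Agent.U583.MW.Five
import Pool.Agent.U483.KM.Defs
import Pool.Agent.Y163.MW.Pw
import Pool.Agent.Y153.MW.A
import Pool.Agent.Y141.MW.L
import Pool.Agent.Y614.MW.F
import Pool.Agent.Y68.MW.D

/-!
# mw purity of tensor products and of finite products
-/

set_option autoImplicit false

open Module TensorProduct Pool.Agent.Y143 Pool.Agent.Y136.UB Pool.Agent.Y163.MW
  Pool.Agent.Y163.MW.Coh Pool.Agent.U583.MW

namespace Pool.Agent.U483.KM

universe u v

section

variable {Ω : Type u} [Field Ω] [CharZero Ω]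

/-- There is a basis of weight vectors for a representation of `sl(2)` with lowering operator `N`,
and the weights are the ones of the Frobenius (minus `w`). -/
def Adapted (q : ℕ) (w : ℤ) (A : Rep.{u, v} Ω) : Prop :=
  ∃ (I : Type) (_ : Fintype I) (b : Basis I Ω A.V) (a : I → ℤ) (e h : Module.End Ω A.V),
    IsSl2 A.N b a e h ∧ ∀ i, b i ∈ part q w A.Φ (a i)

variable [IsAlgClosed Ω] {q : ℕ} {w w' : ℤ}

lemma adapted_of_pure (hq : 1 < q) {A : Rep.{u, v} Ω} (hA : A.HasWeights q) (h : A.Pure q w) :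
    Adapted q w A := by
  have := hA.finite
  unfold Rep.Pure at h
  rw [pure_iff hq hA.isRep] at h
  obtain ⟨S⟩ := Pool.Agent.Y153.MW.stA Ω A.V (part q w A.Φ) A.N (isInternal_part hq hA.isRep)
    (fun r x hx => N_part hq hA.isRep r hx)
  have h1 := (Pool.Agent.Y614.MW.stF Ω A.V (part q w A.Φ) A.N (isInternal_part hq hA.isRep) S).1 h
  obtain ⟨e, g, H⟩ := Pool.Agent.Y664.MW.t_B2 Ω A.V (part q w A.Φ) A.N S
  refine ⟨_, inferInstance, S.b, _, e, g, H, ?_⟩
  rintro ⟨s, i⟩
  have h2 := S.mem s i
  rw [h1 s] at h2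
  exact h2

lemma pure_of_adapted (hq : 1 < q) {A : Rep.{u, v} Ω} (hA : A.HasWeights q) (h : Adapted q w A) :
    A.Pure q w := by
  unfold Rep.Pure
  rw [pure_iff hq hA.isRep]
  obtain ⟨I, _, b, a, e, g, H, hb⟩ := h
  have hL := Pool.Agent.Y141.MW.stL Ω A.V A.N I b a e g H
  have hs : ∀ r : ℤ, part q w A.Φ r = Submodule.span Ω (b '' {i | a i = r}) := fun r =>
    gr_eq_span (indep_part hq hA.isRep) b a hb r
  have h1 : ∀ (r : ℤ) (x : A.V), x ∈ part q w A.Φ r → g x = (r : Ω) • x := by
    intro r x hx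
    rw [hs] at hx
    induction hx using Submodule.span_induction with
    | mem x hx =>
      obtain ⟨i, hi, rfl⟩ := hx
      rw [H.wt, show a i = r from hi]
    | zero => simp
    | add x y _ _ hx hy => rw [map_add, hx, hy, smul_add]
    | smul c x _ hx => rw [map_smul, hx, smul_comm]
  have h2 : ∀ (r : ℤ) (x : A.V), g x = (r : Ω) • x → x ∈ part q w A.Φ r := by
    intro r x hx
    rw [← b.sum_repr x]
    refine Submodule.sum_mem _ fun i _ => ?_
    by_cases hi : a i = r
    · refine Submodule.smul_mem _ _ ?_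
      rw [← hi]
      exact hb i
    · rw [Pool.Agent.Y68.MW.repr_eq_zero H hx hi, zero_smul]
      exact zero_mem _
  intro k
  constructor
  · intro x hx hN
    exact (hL k).1 x (by simpa using h1 k x hx) hN
  · intro y hy
    obtain ⟨x, hx, hx'⟩ := (hL k).2 y (by simpa using h1 (-(k : ℤ)) y hy)
    exact ⟨x, h2 k x (by simpa using hx), hx'⟩

omit [IsAlgClosed Ω] in
lemma part_tmul (hq : 0 < q) {A B : Rep.{u, v} Ω} {c c' : ℤ} {x : A.V} {y : B.V}
    (hx : x ∈ part q w A.Φ c) (hy : y ∈ part q w' B.Φ c') :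
    x ⊗ₜ[Ω] y ∈ part q (w + w') (ten A B).Φ (c + c') := by
  have h2 : part q w A.Φ c ≤ (part q (w + w') (ten A B).Φ (c + c')).comap
      ((TensorProduct.mk Ω A.V B.V).flip y) := by
    refine iSup₂_le fun α hα z hz => ?_
    have h3 : part q w' B.Φ c' ≤ (part q (w + w') (ten A B).Φ (c + c')).comap
        ((TensorProduct.mk Ω A.V B.V) z) := by
      refine iSup₂_le fun β hβ t ht => ?_
      have h4 := weil_mul hq hα hβ
      rw [show c + w + (c' + w') = c + c' + (w + w') by ring] at h4
      exact Submodule.mem_iSup_of_mem _ (Submodule.mem_iSup_of_mem h4 (gen_tmul hz ht))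
    exact h3 hy
  exact h2 hx

omit [IsAlgClosed Ω] in
lemma tmul_comm {V V' : Type v} [AddCommGroup V] [Module Ω V] [AddCommGroup V'] [Module Ω V']
    {f n : Module.End Ω V} {f' n' : Module.End Ω V'} (h : ∀ x, n (f x) = (q : Ω) • f (n x))
    (h' : ∀ x, n' (f' x) = (q : Ω) • f' (n' x)) (x : V ⊗[Ω] V') :
    (TensorProduct.map n LinearMap.id + TensorProduct.map LinearMap.id n' :
      Module.End Ω (V ⊗[Ω] V')) (TensorProduct.map f f' x) = (q : Ω) • TensorProduct.map f f'
      ((TensorProduct.map n LinearMap.id + TensorProduct.map LinearMap.id n' :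
      Module.End Ω (V ⊗[Ω] V')) x) := by
  induction x using TensorProduct.induction_on with
  | zero => simp
  | tmul x y =>
    simp only [LinearMap.add_apply, TensorProduct.map_tmul, LinearMap.id_apply, map_add,
      h, h', smul_add, TensorProduct.smul_tmul', TensorProduct.tmul_smul]
  | add x y hx hy => rw [map_add, map_add, map_add, map_add, smul_add, hx, hy]

lemma tmul_weil (hq : 1 < q) {V V' : Type v} [AddCommGroup V] [Module Ω V] [AddCommGroup V']
    [Module Ω V'] {f n : Module.End Ω V} {f' n' : Module.End Ω V'} (hf : IsRep q f n)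
    (hf' : IsRep q f' n') (γ : Ω) (x : V ⊗[Ω] V') (hx0 : x ≠ 0)
    (hx : TensorProduct.map f f' x = γ • x) : ∃ w : ℤ, IsWeilNumber q w γ := by
  have := hf.finite
  have := hf'.finite
  by_contra hγ
  set F : Module.End Ω (V ⊗[Ω] V') := TensorProduct.map f f' with hF
  have key : ∀ (a : V) (b : V'), a ⊗ₜ[Ω] b ∈ ⨆ (α : Ω) (_ : α ≠ γ), F.maxGenEigenspace α := by
    intro a b
    have ha : a ∈ ⨆ α, f.maxGenEigenspace α := by
      rw [Module.End.iSup_maxGenEigenspace_eq_top f]; trivial
    have hb : b ∈ ⨆ α, f'.maxGenEigenspace α := by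
      rw [Module.End.iSup_maxGenEigenspace_eq_top f']; trivial
    induction ha using Submodule.iSup_induction' with
    | mem α a ha =>
      induction hb using Submodule.iSup_induction' with
      | mem β b hb =>
        by_cases ha0 : a = 0
        · rw [ha0, TensorProduct.zero_tmul]; exact zero_mem _
        by_cases hb0 : b = 0
        · rw [hb0, TensorProduct.tmul_zero]; exact zero_mem _
        obtain ⟨w₁, h1⟩ := weil_of_gen hf ha ha0
        obtain ⟨w₂, h2⟩ := weil_of_gen hf' hb hb0
        have h3 := weil_mul (by omega) h1 h2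
        refine Submodule.mem_iSup_of_mem (α * β) (Submodule.mem_iSup_of_mem ?_ (gen_tmul ha hb))
        rintro rfl
        exact hγ ⟨_, h3⟩
      | zero => rw [TensorProduct.tmul_zero]; exact zero_mem _
      | add x y _ _ hx hy => rw [TensorProduct.tmul_add]; exact add_mem hx hy
    | zero => rw [TensorProduct.zero_tmul]; exact zero_mem _
    | add x y _ _ hx hy => rw [TensorProduct.add_tmul]; exact add_mem hx hy
  have h1 : ∀ z : V ⊗[Ω] V', z ∈ ⨆ (α : Ω) (_ : α ≠ γ), F.maxGenEigenspace α := by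
    intro z
    induction z using TensorProduct.induction_on with
    | zero => exact zero_mem _
    | tmul a b => exact key a b
    | add a b ha hb => exact add_mem ha hb
  have h2 := (iSupIndep_def.1 (Module.End.independent_maxGenEigenspace F)) γ
  have h3 : x ∈ F.maxGenEigenspace γ := by
    refine mem_gen.2 ⟨1, ?_⟩
    rw [pow_one, LinearMap.sub_apply, Module.algebraMap_end_apply, hx, sub_self]
  exact hx0 (Submodule.disjoint_def.1 h2 x h3 (h1 x))

lemma ten_weights (hq : 1 < q) {A B : Rep.{u, v} Ω} (hA : A.HasWeights q) (hB : B.HasWeights q) :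
    (ten A B).HasWeights q := by
  have := hA.finite
  have := hB.finite
  exact ⟨(inferInstance : Module.Finite Ω (A.V ⊗[Ω] B.V)), fun x => tmul_comm hA.comm hB.comm x,
    fun γ x hx0 hx => tmul_weil hq hA.isRep hB.isRep γ x hx0 hx⟩

/-- mw purity of tensor products -/
theorem ten_pure (hq : 1 < q) {A B : Rep.{u, v} Ω} (hA : A.HasWeights q) (hB : B.HasWeights q)
    (pA : A.Pure q w) (pB : B.Pure q w') : (ten A B).Pure q (w + w') := by
  obtain ⟨I, _, b, a, e, h, H, hb⟩ := adapted_of_pure hq hA pA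
  obtain ⟨I', _, b', a', e', h', H', hb'⟩ := adapted_of_pure hq hB pB
  refine pure_of_adapted hq (ten_weights hq hA hB) ⟨I × I', inferInstance, b.tensorProduct b',
    fun p => a p.1 + a' p.2, _, _,
    Pool.Agent.Y210.MW.t_B3 Ω A.V B.V A.N I b a e h B.N I' b' a' e' h' H H', fun p => ?_⟩
  have h1 := part_tmul (A := A) (B := B) (by omega) (hb p.1) (hb' p.2)
  have h2 : (b.tensorProduct b') p = b p.1 ⊗ₜ[Ω] b' p.2 := Basis.tensorProduct_apply b b' p.1 p.2
  exact (congrArg (· ∈ part q (w + w') (ten A B).Φ (a p.1 + a' p.2)) h2).mpr h1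

omit [CharZero Ω] [IsAlgClosed Ω] in
lemma piR_pow {ι : Type} (A : ι → Rep.{u, v} Ω) (k : ℕ) (x : (piR A).V) (i : ι) :
    ((piR A).N ^ k) x i = ((A i).N ^ k) (x i) := by
  induction k generalizing x with
  | zero => rfl
  | succ k ih =>
    rw [pow_succ, Module.End.mul_apply, pow_succ, Module.End.mul_apply, ih]
    rfl

omit [IsAlgClosed Ω] in
theorem pi_pure {ι : Type} [Finite ι] (A : ι → Rep.{u, v} Ω) (h : ∀ i, (A i).Pure q w) :
    (piR A).Pure q w := by
  choose M hM hs hw using h
  refine ⟨fun a => Submodule.pi Set.univ fun i => M i a, ⟨?_, ?_, ?_, ?_, ?_, ?_⟩, ?_, ?_⟩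
  · exact fun a b hab => Submodule.pi_mono fun i _ => (hM i).mono hab
  · choose m hm using fun i => (hM i).bot
    obtain ⟨l, hl⟩ := (Set.finite_range m).bddBelow
    refine ⟨l, (Submodule.eq_bot_iff _).2 fun x hx => ?_⟩
    funext i
    have h1 := hx i trivial
    have h2 := (hM i).mono (hl ⟨i, rfl⟩) h1
    rw [hm, Submodule.mem_bot] at h2
    exact h2
  · choose m hm using fun i => (hM i).top
    obtain ⟨l, hl⟩ := (Set.finite_range m).bddAbove
    refine ⟨l, (Submodule.eq_top_iff'.2 fun x i _ => ?_)⟩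
    refine (hM i).mono (hl ⟨i, rfl⟩) ?_
    rw [hm]
    trivial
  · intro a x hx i _
    exact (hM i).map a _ (hx i trivial)
  · intro a x hx hN i _
    refine (hM i).inj a _ (hx i trivial) ?_
    have h1 := hN i trivial
    rw [piR_pow] at h1
    exact h1
  · intro a y hy
    choose x hx hx' using fun i => (hM i).surj a (y i) (hy i trivial)
    refine ⟨x, fun i _ => hx i, fun i _ => ?_⟩
    have h1 := hx' i
    have h2 := piR_pow A a x i
    exact (congrArg (fun t => y i - t ∈ M i (-a - 1)) h2).mpr h1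
  · intro a x hx i _
    exact hs i a _ (hx i trivial)
  · intro a α x hx hx1 hx2
    have h1 : ∃ i, x i ∉ M i (a - 1) := by
      by_contra h1
      push Not at h1
      exact hx1 fun i _ => h1 i
    obtain ⟨i, hi⟩ := h1
    exact hw i a α (x i) (hx i trivial) hi (hx2 i trivial)

end

end Pool.Agent.U483.KM
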